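import Pool.Agent.Lib.MP_1fe139_gt.Dense

/-!
# Classes of countably supported ultrafilters
-/

set_option autoImplicit false

noncomputable section

namespace Pool.Agent.Lib.MP_1fe139_gt.Big

open Set Cardinal Filter Function

/-- An injective sequence of ultrafilters has a strongly discrete subsequence. -/
theorem exists_discrete {v : ℕ → Ultrafilter ℕ} (hv : Injective v) :
    ∃ (φ : ℕ → ℕ) (A : ℕ → Set ℕ), (∀ k, A k ∈ v (φ k)) ∧ Pairwise (Disjoint on A) := by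
  have : Infinite (range v) := (infinite_range_of_injective hv).to_subtype
  obtain ⟨U, h1, h2, h3⟩ := exists_seq_infinite_isOpen_pairwise_disjoint (X := range v)
  have h4 : ∀ k, ∃ (n : ℕ) (A : Set ℕ), A ∈ v n ∧ (⟨v n, n, rfl⟩ : range v) ∈ U k ∧
      ∀ w : range v, A ∈ w.1 → w ∈ U k := by
    intro k
    obtain ⟨⟨_, n, rfl⟩, hn⟩ := (h1 k).nonempty
    obtain ⟨O, hO, hO'⟩ := isOpen_induced_iff.1 (h2 k)
    obtain ⟨_, ⟨A, rfl⟩, h5, h6⟩ := ultrafilterBasis_is_basis.exists_subset_of_mem_open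
      (a := v n) (u := O) (by rw [← hO'] at hn; exact hn) hO
    exact ⟨n, A, h5, hn, fun w hw => by rw [← hO']; exact h6 hw⟩
  choose φ A h5 h6 h7 using h4
  refine ⟨φ, disjointed A, fun k => ?_, disjoint_disjointed A⟩
  rw [disjointed_eq_inter_compl]
  refine inter_mem (h5 k) ((biInter_mem (finite_lt_nat k)).2 fun j hj => ?_)
  exact Ultrafilter.compl_mem_iff_notMem.2 fun h =>
    disjoint_left.1 (h3 (ne_of_lt hj)) (h7 j _ h) (h6 k)

theorem le_mk_lim {v : ℕ → Ultrafilter ℕ} (hv : Injective v) :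
    2 ^ 𝔠 ≤ #{u : Ultrafilter ℕ | ∀ A ∈ u, ∃ n, A ∈ v n} := by
  obtain ⟨φ, A, h1, h2⟩ := exists_discrete hv
  have h0 : ∀ (p : Ultrafilter ℕ) (T : Set ℕ), T ∈ p.bind (fun k => v (φ k)) ↔
      {k | T ∈ v (φ k)} ∈ p := fun p T =>
    Filter.mem_bind' (f := (p : Filter ℕ)) (m := fun k => (v (φ k) : Filter ℕ)) (s := T)
  refine two_pow_le_mk_ultrafilter.trans (mk_le_of_injective
    (f := fun p => ⟨p.bind fun k => v (φ k), fun T hT => ?_⟩) fun p p' h => ?_)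
  · obtain ⟨k, hk⟩ := Ultrafilter.nonempty_of_mem ((h0 p T).1 hT)
    exact ⟨_, hk⟩
  · have h3 : p.bind (fun k => v (φ k)) = p'.bind fun k => v (φ k) := congrArg Subtype.val h
    refine Ultrafilter.coe_le_coe.1 fun M hM => ?_
    have h4 : (⋃ k ∈ M, A k) ∈ p'.bind fun k => v (φ k) :=
      (h0 _ _).2 (mem_of_superset hM fun k hk =>
        mem_of_superset (h1 k) (subset_biUnion_of_mem (u := A) hk))
    rw [← h3, h0] at h4
    refine mem_of_superset h4 fun k hk => ?_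
    obtain ⟨x, h5, h6⟩ := Ultrafilter.nonempty_of_mem (inter_mem (h1 k) hk)
    obtain ⟨j, h7, h8⟩ := mem_iUnion₂.1 h6
    by_contra h9
    exact disjoint_left.1 (h2 (show k ≠ j from fun e => h9 (e ▸ h7))) h5 h8

theorem mk_task : #((ℕ → Ultrafilter ℕ) × (ℕ → Bool)) ≤ 2 ^ 𝔠 := by
  have h1 : #(Ultrafilter ℕ) ≤ 2 ^ 𝔠 := by
    have := mk_le_of_injective (f := fun u : Ultrafilter ℕ => (u : Filter ℕ).sets)
      fun u v h => Ultrafilter.coe_injective (Filter.filter_eq h)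
    rwa [mk_set, mk_set, mk_nat, two_power_aleph0] at this
  have h2 : ℵ₀ ≤ (2 ^ 𝔠 : Cardinal.{0}) := aleph0_le_continuum.trans (cantor _).le
  rw [mk_prod, lift_id, lift_id, mk_seq, ← power_def, mk_nat]
  refine Cardinal.mul_le_of_le h2 ((power_le_power_right h1).trans ?_) (cantor _).le
  rw [← power_mul, continuum_mul_aleph0]

theorem exists_cls0 : ∃ c : Ultrafilter ℕ → Finset (ℕ → Bool),
    (∀ u v (f g : ℕ → ℕ), u.map f = v → v.map g = u → c u = c v) ∧ (∀ n, c (pure n) = ∅) ∧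
    ∀ v : ℕ → Ultrafilter ℕ, Injective v → ∀ l, ∃ u, (∀ A ∈ u, ∃ n, A ∈ v n) ∧
      (c u : Set (ℕ → Bool)) = insert l (c (v 0) : Set (ℕ → Bool)) := by
  classical
  let I := (2 ^ 𝔠 : Cardinal.{0}).ord.ToType
  have h2 : ℵ₀ ≤ (2 ^ 𝔠 : Cardinal.{0}) := aleph0_le_continuum.trans (cantor _).le
  obtain ⟨g, hg⟩ : ∃ g : I → (ℕ → Ultrafilter ℕ) × (ℕ → Bool), Surjective g := by
    obtain ⟨e⟩ := (Cardinal.le_def _ I).1 (mk_task.trans (mk_ord_toType _).ge)
    exact ⟨invFun e, invFun_surjective e.injective⟩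
  let Q : I → Ultrafilter ℕ → Prop := fun i u =>
    (Injective (g i).1 → ∀ A ∈ u, ∃ n, A ∈ (g i).1 n) ∧
      ∀ j ≤ i, ∀ n (f : ℕ → ℕ), ((g j).1 n).map f ≠ u
  let τ : I → Ultrafilter ℕ := (wellFounded_lt (α := I)).fix fun i prev =>
    Classical.epsilon fun u => Q i u ∧ ∀ j (h : j < i) (f : ℕ → ℕ), (prev j h).map f ≠ u
  have hτ : ∀ i, Q i (τ i) ∧ ∀ j < i, ∀ f : ℕ → ℕ, (τ j).map f ≠ τ i := by
    intro i
    have h1 : τ i = Classical.epsilon fun u => Q i u ∧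
        ∀ j (_ : j < i) (f : ℕ → ℕ), (τ j).map f ≠ u := WellFounded.fix_eq _ _ _
    rw [h1]
    refine Classical.epsilon_spec (p := fun u => Q i u ∧
        ∀ j (_ : j < i) (f : ℕ → ℕ), (τ j).map f ≠ u) ?_
    let F : (Iio i × (ℕ → ℕ)) ⊕ (Iic i × ℕ × (ℕ → ℕ)) → Ultrafilter ℕ :=
      Sum.elim (fun x => (τ x.1).map x.2) fun x => ((g x.1).1 x.2.1).map x.2.2
    have h3 : #(Iio i) < 2 ^ 𝔠 := by simpa [I] using mk_Iio_lt i
    have h4 : #(Iic i) < 2 ^ 𝔠 := by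
      rw [← Iio_insert]
      exact mk_insert_le.trans_lt (add_lt_of_lt h2 h3 (one_lt_aleph0.trans_le h2))
    have h5 : #(ℕ → ℕ) < 2 ^ 𝔠 := by simpa using cantor 𝔠
    have h6 : #(range F) < 2 ^ 𝔠 := by
      refine mk_range_le.trans_lt ?_
      simp only [mk_sum, mk_prod, lift_id, mk_nat]
      exact add_lt_of_lt h2 (mul_lt_of_lt h2 h3 h5) (mul_lt_of_lt h2 h4
        (mul_lt_of_lt h2 (aleph0_le_continuum.trans_lt (cantor _)) h5))
    have h7 : 2 ^ 𝔠 ≤ #{u : Ultrafilter ℕ | Injective (g i).1 → ∀ A ∈ u, ∃ n, A ∈ (g i).1 n} := by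
      by_cases h : Injective (g i).1
      · exact (le_mk_lim h).trans (mk_le_mk_of_subset fun u hu _ => hu)
      · refine two_pow_le_mk_ultrafilter.trans ?_
        rw [← mk_univ]
        exact mk_le_mk_of_subset fun u _ h' => absurd h' h
    obtain ⟨u, h8, h9⟩ := not_subset.1 fun h => (h6.trans_le h7).not_ge (mk_le_mk_of_subset h)
    exact ⟨u, ⟨h8, fun j hj n f e => h9 ⟨.inr (⟨j, hj⟩, n, f), e⟩⟩,
      fun j hj f e => h9 ⟨.inl (⟨j, hj⟩, f), e⟩⟩
  let R : Ultrafilter ℕ → I → Prop := fun u i =>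
    (∃ f : ℕ → ℕ, u.map f = τ i) ∧ ∃ f : ℕ → ℕ, (τ i).map f = u
  have hR : ∀ u i j, R u i → R u j → i = j := by
    have h1 : ∀ u i j, R u i → R u j → ¬ i < j := by
      rintro u i j ⟨-, f, hf⟩ ⟨⟨f', hf'⟩, -⟩ h
      exact (hτ j).2 i h (f' ∘ f) (by rw [← Ultrafilter.map_map, hf, hf'])
    exact fun u i j h h' => le_antisymm (not_lt.1 (h1 u j i h' h)) (not_lt.1 (h1 u i j h h'))
  let C : I → Finset (ℕ → Bool) := (wellFounded_lt (α := I)).fix fun i prev =>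
    insert (g i).2 (if h : ∃ j < i, R ((g i).1 0) j then prev h.choose h.choose_spec.1 else ∅)
  have hC : ∀ i, C i = insert (g i).2
      (if h : ∃ j < i, R ((g i).1 0) j then C h.choose else ∅) := fun i => WellFounded.fix_eq _ _ _
  let c : Ultrafilter ℕ → Finset (ℕ → Bool) := fun u => if h : ∃ i, R u i then C h.choose else ∅
  have hc : ∀ u i, R u i → c u = C i := fun u i h => by
    have h1 : ∃ i, R u i := ⟨i, h⟩
    simp only [c, dif_pos h1]
    rw [hR u _ _ h1.choose_spec h]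
  have hc0 : ∀ u, (¬ ∃ i, R u i) → c u = ∅ := fun u h => dif_neg h
  refine ⟨c, fun u v f f' h h' => ?_, fun n => hc0 _ ?_, fun v hv l => ?_⟩
  · have h1 : ∀ u v (f f' : ℕ → ℕ) i, Ultrafilter.map f u = v → Ultrafilter.map f' v = u →
        R u i → R v i := by
      rintro u v f f' i h h' ⟨⟨a, ha⟩, b, hb⟩
      exact ⟨⟨a ∘ f', by rw [← Ultrafilter.map_map, h', ha]⟩,
        f ∘ b, by rw [← Ultrafilter.map_map, hb, h]⟩
    by_cases h3 : ∃ i, R u i
    · obtain ⟨i, hi⟩ := h3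
      rw [hc u i hi, hc v i (h1 u v f f' i h h' hi)]
    · rw [hc0 u h3, hc0 v fun ⟨i, hi⟩ => h3 ⟨i, h1 v u f' f i h' h hi⟩]
  · rintro ⟨i, ⟨f, hf⟩, -⟩
    refine (hτ i).1.2 i le_rfl 0 (fun _ => f n) ?_
    rw [← hf]
    ext A
    by_cases h : f n ∈ A
    · simp [h]
      exact univ_mem (f := ((g i).1 0 : Filter ℕ))
    · simp [h]
  · obtain ⟨i, hi⟩ := hg (v, l)
    have h1 : (g i).1 = v := by rw [hi]
    refine ⟨τ i, h1 ▸ (hτ i).1.1 (h1 ▸ hv), ?_⟩
    rw [hc _ i ⟨⟨id, Ultrafilter.map_id _⟩, id, Ultrafilter.map_id _⟩, hC, ← h1,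
      show l = (g i).2 by rw [hi], Finset.coe_insert]
    congr 2
    split_ifs with h
    · exact (hc _ _ h.choose_spec.2).symm
    · refine (hc0 _ fun ⟨j, hj⟩ => h ⟨j, ?_, hj⟩).symm
      obtain ⟨f, hf⟩ := hj.1
      exact not_le.1 fun h3 => (hτ j).1.2 i h3 0 f hf

variable {Ω : Type}

theorem exists_rep [Infinite Ω] {D : Set Ω} (hD : D.Countable) :
    ∃ e : ℕ → Ω, Injective e ∧ ∀ y : Ultrafilter Ω, D ∈ y → ∃ u : Ultrafilter ℕ, u.map e = y := by
  have h1 : (D ∪ range (Infinite.natEmbedding Ω)).Countable := hD.union (countable_range _)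
  have h2 : (D ∪ range (Infinite.natEmbedding Ω)).Infinite :=
    (infinite_range_of_injective (Infinite.natEmbedding Ω).injective).mono subset_union_right
  obtain ⟨d⟩ := Set.countable_infinite_iff_nonempty_denumerable.1 ⟨h1, h2⟩
  let e := (Denumerable.eqv ↥(D ∪ range (Infinite.natEmbedding Ω))).symm
  have h3 : Injective fun n => (e n).1 := Subtype.val_injective.comp e.injective
  refine ⟨_, h3, fun y hy => ?_⟩
  have h4 : range (fun n => (e n).1) ∈ y :=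
    mem_of_superset hy fun x hx => ⟨e.symm ⟨x, Or.inl hx⟩, by simp⟩
  exact ⟨y.comap h3 h4, Ultrafilter.coe_injective (Filter.map_comap_of_mem h4)⟩

theorem exists_cls (Ω : Type) [Infinite Ω] : ∃ c : Ultrafilter Ω → Finset (ℕ → Bool),
    (∀ x, c (pure x) = ∅) ∧ ∀ W : Set (Ultrafilter Ω), W.Infinite →
      (∀ w ∈ W, ∃ D : Set Ω, D.Countable ∧ D ∈ w) → ∀ S, (∀ w ∈ W, c w = S) → ∀ l,
      ∃ y : Ultrafilter Ω, (∃ D : Set Ω, D.Countable ∧ D ∈ y) ∧ (∀ T ∈ y, ∃ w ∈ W, T ∈ w) ∧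
        (c y : Set (ℕ → Bool)) = insert l (S : Set (ℕ → Bool)) := by
  classical
  obtain ⟨c₀, h1, h2, h3⟩ := exists_cls0
  let c : Ultrafilter Ω → Finset (ℕ → Bool) := fun y =>
    if h : ∃ p : (ℕ → Ω) × Ultrafilter ℕ, Injective p.1 ∧ p.2.map p.1 = y then c₀ h.choose.2 else ∅
  have hc : ∀ (e : ℕ → Ω) (u : Ultrafilter ℕ), Injective e → c (u.map e) = c₀ u := by
    intro e u he
    have h : ∃ p : (ℕ → Ω) × Ultrafilter ℕ, Injective p.1 ∧ p.2.map p.1 = u.map e :=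
      ⟨(e, u), he, rfl⟩
    simp only [c, dif_pos h]
    obtain ⟨h4, h5⟩ := h.choose_spec
    generalize h.choose = p at h4 h5
    refine h1 _ _ (invFun e ∘ p.1) (invFun p.1 ∘ e) ?_ ?_
    · rw [← Ultrafilter.map_map, h5, Ultrafilter.map_map, invFun_comp he, Ultrafilter.map_id]
    · rw [← Ultrafilter.map_map, ← h5, Ultrafilter.map_map, invFun_comp h4, Ultrafilter.map_id]
  refine ⟨c, fun x => ?_, fun W hW hD S hS l => ?_⟩
  · obtain ⟨e, he, h4⟩ := exists_rep (countable_singleton x)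
    obtain ⟨u, hu⟩ := h4 (pure x) rfl
    have h5 : e ⁻¹' {x} ∈ u := by
      rw [← Ultrafilter.mem_map, hu]
      exact rfl
    obtain ⟨n, -, rfl⟩ := Ultrafilter.eq_pure_of_finite_mem
      ((finite_singleton x).preimage he.injOn) h5
    rw [← hu, hc _ _ he, h2]
  · let w := hW.natEmbedding
    choose D h4 h5 using fun n => hD (w n).1 (w n).2
    obtain ⟨e, he, h6⟩ := exists_rep (countable_iUnion h4)
    choose v hv using fun n => h6 (w n).1 (mem_of_superset (h5 n) (subset_iUnion D n))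
    obtain ⟨u, h7, h8⟩ := h3 v (fun n m h => w.injective (Subtype.ext (by
      rw [← hv n, ← hv m, h]))) l
    refine ⟨u.map e, ⟨range e, countable_range e, range_mem_map⟩, fun T hT => ?_, ?_⟩
    · obtain ⟨n, hn⟩ := h7 _ (Ultrafilter.mem_map.1 hT)
      exact ⟨_, (w n).2, by rw [← hv n]; exact hn⟩
    · rw [hc _ _ he, h8, ← hc _ _ he, hv, hS _ (w 0).2]

end Pool.Agent.Lib.MP_1fe139_gt.Big
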