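import Pool.Agent.Lib.MP_1fe139_gt.Big.Cls

/-!
# The space of countably supported ultrafilters on a free tree
-/

set_option autoImplicit false

noncomputable section

namespace Pool.Agent.Lib.MP_1fe139_gt.Big

open Set Cardinal Filter Function Topology

/-- The nodes of the tree. -/
inductive Nd (Λ : Type) : Type
  | root : Λ → Nd Λ
  | step : Nd Λ → Finset (ℕ → Bool) → (ℕ → Bool) → (ℕ → Nd Λ) → Ultrafilter ℕ → Nd Λ

variable {Λ : Type}

/-- The labels used by the last step of a node. -/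
def Nd.dat : Nd Λ → Set (ℕ → Bool)
  | .root _ => ∅
  | .step _ a l _ _ => insert l a

theorem Nd.dat_finite : ∀ ν : Nd Λ, ν.dat.Finite
  | .root _ => finite_empty
  | .step _ a _ _ _ => a.finite_toSet.insert _

theorem exists_notMem {s : Set (ℕ → Bool)} (h : s.Countable) : ∃ i, i ∉ s := by
  by_contra h1
  push Not at h1
  rw [eq_univ_of_forall h1, ← le_aleph0_iff_set_countable, mk_univ, mk_seq] at h
  exact absurd aleph0_lt_continuum (not_lt.2 h)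

/-- The points. -/
abbrev Pt (Λ : Type) : Type := {y : Ultrafilter (Nd Λ) // ∃ D : Set (Nd Λ), D.Countable ∧ D ∈ y}

/-- A node as a point. -/
def pt (ν : Nd Λ) : Pt Λ := ⟨pure ν, {ν}, countable_singleton ν, rfl⟩

variable (c : Ultrafilter (Nd Λ) → Finset (ℕ → Bool))

/-- The point itself and the points of lower class. -/
def E (y : Ultrafilter (Nd Λ)) (T : Set (Nd Λ)) : Set (Ultrafilter (Nd Λ)) :=
  {z | z = y ∨ (T ∈ z ∧ c z ⊂ c y)}

/-- The nodes of a basic neighbourhood. -/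
inductive In (y : Ultrafilter (Nd Λ)) (T : Set (Nd Λ)) (t : Finset (ℕ → Bool)) : Nd Λ → Prop
  | base {σ} : σ ∈ T → In y T t σ
  | sh {σ a l e u} : Ultrafilter.map e u ∈ E c y T → l ∈ c (Ultrafilter.map e u) →
      (∀ i ∈ t, i ∈ a) → In y T t (.step σ a l e u)
  | cone {σ a l e u} : In y T t σ → (∀ i ∈ t, i ∈ a ↔ i ≠ l) → In y T t (.step σ a l e u)

/-- Basic neighbourhoods. -/
def V (y : Ultrafilter (Nd Λ)) (T : Set (Nd Λ)) (t : Finset (ℕ → Bool)) : Set (Pt Λ) :=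
  {z | z.1 ∈ E c y T ∨ ∃ ν, In c y T t ν ∧ z = pt ν}

variable {c} {y y' z : Ultrafilter (Nd Λ)} {T T' : Set (Nd Λ)} {t t' : Finset (ℕ → Bool)}

theorem V_sub (h1 : ∀ w ∈ E c z T', w ∈ E c y T ∨ (c w = ∅ ∧ ∃ ν, In c y T t ν ∧ w = pure ν))
    (h2 : ∀ σ ∈ T', In c y T t σ) (h3 : t ⊆ t') : V c z T' t' ⊆ V c y T t := by
  have h4 : ∀ ν, In c z T' t' ν → In c y T t ν := by
    intro ν h
    induction h with
    | base h => exact h2 _ h
    | sh h h' h'' =>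
      rcases h1 _ h with h5 | ⟨h5, -⟩
      · exact .sh h5 h' fun i hi => h'' i (h3 hi)
      · rw [h5] at h'
        exact absurd h' (Finset.notMem_empty _)
    | cone _ h ih => exact .cone ih fun i hi => h i (h3 hi)
  rintro w (h | ⟨ν, h, rfl⟩)
  · rcases h1 _ h with h5 | ⟨-, ν, h5, h6⟩
    · exact Or.inl h5
    · exact Or.inr ⟨ν, h5, Subtype.ext h6⟩
  · exact Or.inr ⟨ν, h4 ν h, rfl⟩

theorem V_mono (h : T' ⊆ T) (h' : t ⊆ t') : V c y T' t' ⊆ V c y T t :=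
  V_sub (fun _ hw => Or.inl (hw.imp id fun h1 => ⟨mem_of_superset h1.1 h, h1.2⟩))
    (fun _ hσ => .base (h hσ)) h'

theorem mem_V (x : Pt Λ) : x ∈ V c x.1 T t := Or.inl (Or.inl rfl)

variable (c) in
/-- The topology. -/
@[reducible] def top : TopologicalSpace (Pt Λ) where
  IsOpen U := ∀ x ∈ U, ∃ T ∈ x.1, ∃ t, V c x.1 T t ⊆ U
  isOpen_univ x _ := ⟨univ, univ_mem, ∅, subset_univ _⟩
  isOpen_inter U W hU hW x hx := by
    classical
    obtain ⟨T, h1, t, h2⟩ := hU x hx.1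
    obtain ⟨T', h3, t', h4⟩ := hW x hx.2
    exact ⟨T ∩ T', inter_mem h1 h3, t ∪ t',
      subset_inter ((V_mono inter_subset_left Finset.subset_union_left).trans h2)
        ((V_mono inter_subset_right Finset.subset_union_right).trans h4)⟩
  isOpen_sUnion 𝒰 h x hx := by
    obtain ⟨U, hU, hxU⟩ := hx
    obtain ⟨T, h1, t, h2⟩ := h U hU x hxU
    exact ⟨T, h1, t, h2.trans (subset_sUnion_of_mem hU)⟩

theorem exists_V {U : Set (Pt Λ)} (hU : IsOpen[top c] U) {x : Pt Λ} (hx : x ∈ U) :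
    ∃ T ∈ x.1, ∃ t, V c x.1 T t ⊆ U := hU x hx

theorem isOpen_V (h0 : ∀ x, c (pure x) = ∅) (hT : T ∈ y) : IsOpen[top c] (V c y T t) := by
  rintro x ((h | h) | ⟨ν, h, rfl⟩)
  · exact ⟨T, h ▸ hT, t, h ▸ subset_rfl⟩
  · refine ⟨T, h.1, t, V_sub (fun w hw => Or.inl (Or.inr ?_)) (fun _ => .base) subset_rfl⟩
    rcases hw with rfl | hw
    · exact h
    · exact ⟨hw.1, hw.2.trans h.2⟩
  · refine ⟨{ν}, rfl, t, V_sub (fun w hw => Or.inr ?_) (fun _ h1 => h1 ▸ h) subset_rfl⟩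
    rcases hw with rfl | hw
    · exact ⟨h0 ν, ν, h, rfl⟩
    · have h1 : c w ⊂ c (pure ν) := hw.2
      rw [h0] at h1
      exact absurd h1 (Finset.not_ssubset_empty _)

theorem E_mem (hT : T ∈ y) (h : z ∈ E c y T) : T ∈ z ∧ c z ⊆ c y := by
  rcases h with rfl | h
  · exact ⟨hT, subset_rfl⟩
  · exact ⟨h.1, h.2.1⟩

theorem E_disj (hT : T ∈ y) (hT' : T' ∈ y') (hd : Disjoint T T') (h : z ∈ E c y T)
    (h' : z ∈ E c y' T') : False := by
  obtain ⟨x, h1, h2⟩ := Ultrafilter.nonempty_of_mem (inter_mem (E_mem hT h).1 (E_mem hT' h').1)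
  exact disjoint_left.1 hd h1 h2

theorem In.base_of {i : ℕ → Bool} (hi : i ∈ t) {ν : Nd Λ} (h : In c y T t ν) (h1 : i ∉ ν.dat) :
    ν ∈ T := by
  cases h with
  | base h => exact h
  | sh _ _ h => exact absurd (Or.inr (h i hi)) h1
  | cone _ h => exact absurd (Or.inr ((h i hi).2 fun e => h1 (Or.inl e))) h1

theorem In_disj (hT : T ∈ y) (hT' : T' ∈ y') (hd : Disjoint T T') {i : ℕ → Bool} (hi : i ∈ t)
    (h1 : ∀ ν ∈ T, i ∉ ν.dat) (h2 : ∀ ν ∈ T', i ∉ ν.dat) (h3 : c y ⊆ t) (h4 : c y' ⊆ t)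
    {ν : Nd Λ} (h : In c y T t ν) : ¬ In c y' T' t ν := by
  induction h with
  | base h => exact fun h' => disjoint_left.1 hd h (h'.base_of hi (h1 _ h))
  | sh h5 h6 h7 =>
    intro h'
    cases h' with
    | base h' => exact h2 _ h' (Or.inr (h7 i hi))
    | sh h8 => exact E_disj hT hT' hd h5 h8
    | cone _ h8 =>
      have h9 := h3 ((E_mem hT h5).2 h6)
      exact (h8 _ h9).1 (h7 _ h9) rfl
  | cone h5 h6 ih =>
    intro h'
    cases h' with
    | base h' => exact h2 _ h' (Or.inr ((h6 i hi).2 fun e => h2 _ h' (Or.inl e)))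
    | sh h7 h8 h9 =>
      have h10 := h4 ((E_mem hT' h7).2 h8)
      exact (h6 _ h10).1 (h9 _ h10) rfl
    | cone h7 => exact ih h7

theorem t2 (h0 : ∀ x, c (pure x) = ∅) : @T2Space _ (top c) := by
  classical
  let _ := top c
  refine ⟨fun x x' hne => ?_⟩
  obtain ⟨F, h1, h2⟩ : ∃ F, F ∈ x.1 ∧ F ∉ x'.1 := by
    by_contra h
    push Not at h
    exact hne (Subtype.ext (Ultrafilter.coe_le_coe.1 h).symm)
  obtain ⟨D, h3, h4⟩ := x.2
  obtain ⟨D', h5, h6⟩ := x'.2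
  obtain ⟨i, hi⟩ := exists_notMem ((h3.union h5).biUnion fun ν _ => ν.dat_finite.countable)
  have hT : F ∩ D ∈ x.1 := inter_mem h1 h4
  have hT' : Fᶜ ∩ D' ∈ x'.1 := inter_mem (Ultrafilter.compl_mem_iff_notMem.2 h2) h6
  have hd : Disjoint (F ∩ D) (Fᶜ ∩ D') := disjoint_left.2 fun _ h h' => h'.1 h.1
  have h7 : ∀ ν, In c x.1 (F ∩ D) (insert i (c x.1 ∪ c x'.1)) ν →
      ¬ In c x'.1 (Fᶜ ∩ D') (insert i (c x.1 ∪ c x'.1)) ν := fun ν =>
    In_disj hT hT' hd (Finset.mem_insert_self _ _)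
      (fun ν h h' => hi (mem_biUnion (Or.inl h.2) h'))
      (fun ν h h' => hi (mem_biUnion (Or.inr h.2) h'))
      (Finset.subset_union_left.trans (Finset.subset_insert _ _))
      (Finset.subset_union_right.trans (Finset.subset_insert _ _))
  refine ⟨_, _, isOpen_V (t := insert i (c x.1 ∪ c x'.1)) h0 hT,
    isOpen_V (t := insert i (c x.1 ∪ c x'.1)) h0 hT', mem_V x, mem_V x', disjoint_left.2 ?_⟩
  rintro w (h | ⟨ν, h, rfl⟩) (h' | ⟨ν', h', e⟩)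
  · exact E_disj hT hT' hd h h'
  · subst e
    exact h7 ν' (.base (E_mem hT h).1) h'
  · exact h7 ν h (.base (E_mem hT' h').1)
  · obtain rfl : ν = ν' := Ultrafilter.pure_injective (congrArg Subtype.val e)
    exact h7 ν h h'

theorem mem_cl {A : Set (Pt Λ)} {x : Pt Λ}
    (h : ∀ T ∈ x.1, ∀ t, (V c x.1 T t ∩ A).Nonempty) : x ∈ closure[top c] A := by
  let _ := top c
  rw [mem_closure_iff]
  intro U hU hx
  obtain ⟨T, h1, t, h2⟩ := exists_V hU hx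
  exact (h T h1 t).mono (inter_subset_inter_left _ h2)

theorem meet [Infinite (Nd Λ)] (x : Pt Λ) {l : ℕ → Bool} (hl : l ∈ c x.1) (hT' : T' ∈ y')
    (ht : l ∉ t') : (V c y' T' t' ∩ V c x.1 T t).Nonempty := by
  classical
  obtain ⟨σ, hσ⟩ := Ultrafilter.nonempty_of_mem hT'
  obtain ⟨D, h1, h2⟩ := x.2
  obtain ⟨e, -, h3⟩ := exists_rep h1
  obtain ⟨u, hu⟩ := h3 _ h2
  refine ⟨pt (.step σ (t ∪ t') l e u), Or.inr ⟨_, .cone (.base hσ) fun i hi => ?_, rfl⟩,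
    Or.inr ⟨_, .sh (Or.inl hu) (hu ▸ hl) fun i hi => Finset.mem_union_left _ hi, rfl⟩⟩
  exact iff_of_true (Finset.mem_union_right _ hi) fun e => ht (e ▸ hi)

theorem sql [Infinite (Nd Λ)] (hc : ∀ W : Set (Ultrafilter (Nd Λ)), W.Infinite →
      (∀ w ∈ W, ∃ D : Set (Nd Λ), D.Countable ∧ D ∈ w) → ∀ S, (∀ w ∈ W, c w = S) → ∀ l,
      ∃ y : Ultrafilter (Nd Λ), (∃ D : Set (Nd Λ), D.Countable ∧ D ∈ y) ∧
        (∀ T ∈ y, ∃ w ∈ W, T ∈ w) ∧ (c y : Set (ℕ → Bool)) = insert l (S : Set (ℕ → Bool)))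
    (F : Set (Pt Λ)) (hF : IsClosed[top c] F) (U : ℕ → Set (Set (Pt Λ)))
    (hU : ∀ n, ∀ u ∈ U n, IsOpen[top c] u) (hc' : F ⊆ ⋃₀ (⋃ n, U n)) :
    ∃ W : ℕ → Set (Set (Pt Λ)), (∀ n, W n ⊆ U n ∧ (W n).Countable) ∧
      F ⊆ ⋃ n, closure[top c] (⋃₀ W n) := by
  let _ := top c
  have h1 : ∀ x : F, ∃ n, ∃ O ∈ U n, x.1 ∈ O := fun x => by
    obtain ⟨O, h1, h2⟩ := hc' x.2
    obtain ⟨n, hn⟩ := mem_iUnion.1 h1
    exact ⟨n, O, hn, h2⟩
  choose n O h2 h3 using h1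
  by_cases h : ∃ m, {l | ∃ x : F, n x = m ∧ l ∈ c x.1.1}.Infinite
  · obtain ⟨m, hm⟩ := h
    let e := hm.natEmbedding
    choose x h4 h5 using fun k => (e k).2
    refine ⟨fun m' => {u | m' = m ∧ ∃ k, u = O (x k)}, fun m' => ⟨?_, ?_⟩,
      fun p _ => mem_iUnion.2 ⟨m, mem_cl fun T hT t => ?_⟩⟩
    · rintro _ ⟨rfl, k, rfl⟩
      rw [← h4 k]
      exact h2 _
    · refine (countable_range fun k => O (x k)).mono ?_
      rintro _ ⟨-, k, rfl⟩
      exact ⟨k, rfl⟩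
    · obtain ⟨_, ⟨k, rfl⟩, hk⟩ := (infinite_range_of_injective
        (Subtype.val_injective.comp e.injective)).exists_notMem_finset t
      obtain ⟨T', -, t', h7⟩ := exists_V (hU _ _ (h2 (x k))) (h3 (x k))
      obtain ⟨w, h8, h9⟩ := meet (T := T') (t := t') (x k).1 (h5 k) hT hk
      exact ⟨w, h8, _, ⟨rfl, k, rfl⟩, h7 h9⟩
  · push Not at h
    have h4 : {l | ∃ x ∈ F, l ∈ c x.1}.Countable := by
      refine (countable_iUnion fun m => (h m).countable).mono ?_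
      rintro l ⟨x, hx, hl⟩
      exact mem_iUnion.2 ⟨_, ⟨x, hx⟩, rfl, hl⟩
    have h5 : ∀ S, {x ∈ F | c x.1 = S}.Finite := by
      intro S
      by_contra h5
      obtain ⟨l, hl⟩ := exists_notMem (h4.union S.finite_toSet.countable)
      obtain ⟨y, h6, h7, h8⟩ := hc _ (Set.Infinite.image Subtype.val_injective.injOn h5)
        (by rintro _ ⟨w, -, rfl⟩; exact w.2) S (by rintro _ ⟨w, hw, rfl⟩; exact hw.2) l
      refine hl (Or.inl ⟨⟨y, h6⟩, ?_, ?_⟩)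
      · rw [← hF.closure_eq]
        refine mem_cl fun T hT t => ?_
        obtain ⟨_, ⟨w, hw, rfl⟩, h9⟩ := h7 T hT
        refine ⟨w, Or.inl (Or.inr ⟨h9, ?_⟩), hw.1⟩
        rw [← Finset.coe_ssubset, hw.2, h8]
        exact ssubset_insert fun h10 => hl (Or.inr h10)
      · rw [← Finset.mem_coe, h8]
        exact mem_insert _ _
    have h6 : F.Countable := by
      have h7 : {S : Finset (ℕ → Bool) | ↑S ⊆ {l | ∃ x ∈ F, l ∈ c x.1}}.Countable :=
        ((countable_ofPred_finite_subset h4).preimage Finset.coe_injective).mono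
          fun S hS => And.intro S.finite_toSet hS
      refine (h7.biUnion fun S _ => (h5 S).countable).mono fun x hx => ?_
      exact mem_biUnion (x := c x.1) (fun l hl => ⟨x, hx, hl⟩) ⟨hx, rfl⟩
    have := h6.to_subtype
    refine ⟨fun m => O '' {x | n x = m}, fun m => ⟨?_, (to_countable _).image _⟩, fun x hx =>
      mem_iUnion.2 ⟨n ⟨x, hx⟩, subset_closure ⟨_, ⟨⟨x, hx⟩, rfl, rfl⟩, h3 _⟩⟩⟩
    rintro _ ⟨x, rfl, rfl⟩
    exact h2 x

theorem exists_space (κ : Cardinal.{0}) : ∃ (X : Type) (_ : TopologicalSpace X), T2Space X ∧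
    (∀ F : Set X, IsClosed F → ∀ U : ℕ → Set (Set X), (∀ n, ∀ u ∈ U n, IsOpen u) →
      F ⊆ ⋃₀ (⋃ n, U n) → ∃ V : ℕ → Set (Set X), (∀ n, V n ⊆ U n ∧ (V n).Countable) ∧
        F ⊆ ⋃ n, closure (⋃₀ V n)) ∧
    (∀ x : X, ∃ B : Set (Set X), (∀ b ∈ B, IsOpen b ∧ x ∈ b) ∧
      (∀ u ∈ 𝓝 x, ∃ b ∈ B, b ⊆ u) ∧ #B ≤ 𝔠) ∧ κ ≤ #X := by
  let Λ := κ.out ⊕ ℕ
  have hr : Injective (Nd.root : Λ → Nd Λ) := fun _ _ h => Nd.root.inj h
  have : Infinite (Nd Λ) := Infinite.of_injective _ hr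
  obtain ⟨c, h0, hc⟩ := exists_cls (Nd Λ)
  refine ⟨Pt Λ, top c, t2 h0, sql hc, fun x => ?_, ?_⟩
  · let _ := top c
    obtain ⟨D, h1, h2⟩ := x.2
    obtain ⟨e, -, h3⟩ := exists_rep h1
    obtain ⟨u, hu⟩ := h3 _ h2
    refine ⟨(fun p : Set ℕ × Finset (ℕ → Bool) => V c x.1 (e '' p.1) p.2) '' {p | p.1 ∈ u}, ?_,
      fun O hO => ?_, mk_image_le.trans ((mk_set_le _).trans ?_)⟩
    · rintro _ ⟨p, hp, rfl⟩
      exact ⟨isOpen_V h0 (hu ▸ image_mem_map (f := (u : Filter ℕ)) hp), mem_V x⟩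
    · obtain ⟨v, hv, hv', hx⟩ := mem_nhds_iff.1 hO
      obtain ⟨T, h4, t, h5⟩ := exists_V hv' hx
      refine ⟨_, ⟨(e ⁻¹' T, t), ?_, rfl⟩,
        ((V_mono (image_preimage_subset _ _) subset_rfl).trans h5).trans hv⟩
      rw [← hu] at h4
      exact h4
    · rw [mk_prod, lift_id, lift_id, mk_finset_of_infinite, mk_seq, mk_set, mk_nat,
        two_power_aleph0, continuum_mul_self]
  · rw [← mk_out κ]
    exact mk_le_of_injective (f := fun a => pt (.root (.inl a))) fun a b h =>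
      Sum.inl.inj (hr (Ultrafilter.pure_injective (congrArg Subtype.val h)))

end Pool.Agent.Lib.MP_1fe139_gt.Big
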